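import Mathlib

/-!
# Spectral radius of the left random walk operator and left amenability (MP_122225_al, Q1 and Q2)
-/

namespace Pool.Agent.Results.MP_122225_al.LargeSpectralRadius

open Set Filter Topology
open scoped ENNReal

/-! ### Definitions used in the statement -/

/-- Left amenability: there is a finitely additive probability measure `μ` on all subsets of `S`
with `μ (a⁻¹A) = μ A`, `a⁻¹A = {s | a s ∈ A}`. -/
def LeftAmenable (S : Type) [Monoid S] : Prop :=
  ∃ μ : Set S → ℝ, (∀ A, 0 ≤ μ A) ∧ μ univ = 1 ∧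
    (∀ A B, Disjoint A B → μ (A ∪ B) = μ A + μ B) ∧
    ∀ (a : S) (A : Set S), μ {s | a * s ∈ A} = μ A

/-- Left reversibility: `aS ∩ bS ≠ ∅`. -/
def LeftReversible (S : Type) [Monoid S] : Prop := ∀ a b : S, ∃ x y : S, a * x = b * y

/-- The Klawe condition. -/
def Klawe (S : Type) [Monoid S] : Prop :=
  ∀ s x y : S, s * x = s * y → ∃ t, x * t = y * t

/-- The matrix entry `M_{st} = |{i : x_i s = t}| / k`. -/
noncomputable def walkEntry {S : Type} [Monoid S] {k : ℕ} (X : Fin k → S) (s t : S) : ℝ :=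
  (Nat.card {i : Fin k // X i * s = t} : ℝ) / k

/-- The real Hilbert space `ℓ₂(S)`. -/
abbrev L2 (S : Type) : Type := lp (fun _ : S => ℝ) 2

/-- The bounded operator `T` on `ℓ₂(S)` is the left random walk operator `M_X`: for all
`v ∈ ℓ₂(S)` and `t ∈ S` the sum `∑_s v(s) M_{st}` converges, with value `(Tv)(t)`. -/
def IsWalkOperator {S : Type} [Monoid S] {k : ℕ} (X : Fin k → S) (T : L2 S →L[ℝ] L2 S) : Prop :=
  ∀ (v : L2 S) (t : S), HasSum (fun s => v s * walkEntry X s t) (T v t)

/-! ### The composition operator -/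

section comp

variable {S : Type} {L : Type} [Fintype L]

lemma summable_comp (f : S → S) (l : S → L) (hf : Function.Injective (fun s => (f s, l s)))
    {g : S → ℝ} (hg : Summable g) (h0 : ∀ s, 0 ≤ g s) : Summable (fun s => g (f s)) ∧
      ∑' s, g (f s) ≤ Fintype.card L * ∑' s, g s := by
  have h1 : HasSum (fun q : L × S => g q.2) (∑ _ : L, ∑' s, g s) := by
    have : Summable (fun q : L × S => g q.2) := by
      rw [summable_prod_of_nonneg (fun q => h0 q.2)]
      refine ⟨fun _ => hg, ?_⟩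
      exact (hasSum_fintype _).summable
    have h2 := this.hasSum
    have h3 := this.tsum_prod' (fun _ => hg)
    rw [h3, tsum_fintype] at h2
    exact h2
  have h2 : Function.Injective (fun s => (l s, f s)) := by
    intro a b hab
    apply hf
    simp only [Prod.mk.injEq] at hab ⊢
    exact ⟨hab.2, hab.1⟩
  have h3 : Summable (fun s => g (f s)) := h1.summable.comp_injective h2
  refine ⟨h3, ?_⟩
  have h4 := tsum_comp_le_tsum_of_inj (i := fun s => (l s, f s)) h1.summable
    (fun q => h0 q.2) h2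
  rw [h1.tsum_eq] at h4
  simpa [Function.comp_def] using h4

lemma memlp_comp (f : S → S) (l : S → L) (hf : Function.Injective (fun s => (f s, l s)))
    (v : L2 S) : Memℓp (fun s => v (f s)) 2 := by
  refine memℓp_gen ?_
  have h := lp.memℓp v
  have h2 := (memℓp_gen_iff (by norm_num)).1 h
  exact (summable_comp f l hf h2 (fun s => by positivity)).1

/-- composition with `f`, as a bounded operator on `ℓ₂(S)` -/
noncomputable def compOp (f : S → S) (l : S → L)
    (hf : Function.Injective (fun s => (f s, l s))) : L2 S →L[ℝ] L2 S :=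
  LinearMap.mkContinuous
    { toFun := fun v => ⟨fun s => v (f s), memlp_comp f l hf v⟩
      map_add' := fun u v => by ext s; rfl
      map_smul' := fun c v => by ext s; rfl }
    (Real.sqrt (Fintype.card L)) (by
      intro v
      have h2 := (memℓp_gen_iff (by norm_num)).1 (lp.memℓp v)
      have h3 := (summable_comp f l hf h2 (fun s => by positivity)).2
      have h4 := lp.norm_rpow_eq_tsum (p := 2) (by norm_num) v
      set u : L2 S := ⟨fun s => v (f s), memlp_comp f l hf v⟩ with hu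
      have h5 := lp.norm_rpow_eq_tsum (p := 2) (by norm_num) u
      have h6 : ‖u‖ ^ 2 ≤ (Real.sqrt (Fintype.card L) * ‖v‖) ^ 2 := by
        rw [mul_pow, Real.sq_sqrt (by positivity)]
        have e1 : ‖u‖ ^ (2 : ℝ≥0∞).toReal = ‖u‖ ^ 2 := by
          simp
        have e2 : ‖v‖ ^ (2 : ℝ≥0∞).toReal = ‖v‖ ^ 2 := by
          simp
        rw [← e1, ← e2, h4, h5]
        exact h3
      exact le_of_sq_le_sq h6 (by positivity))

lemma compOp_apply (f : S → S) (l : S → L) (hf : Function.Injective (fun s => (f s, l s)))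
    (v : L2 S) (s : S) : compOp f l hf v s = v (f s) := rfl

end comp

/-! ### The random walk operator -/

section walk

variable {S : Type} [Monoid S] {L : Type} [Fintype L] {k : ℕ}

/-- the averaging operator `v ↦ (s ↦ (1/k) ∑ᵢ v(xᵢ s))` on `ℓ₂(S)` -/
noncomputable def avgOp (X : Fin k → S) (l : S → L)
    (hf : ∀ i, Function.Injective (fun s => (X i * s, l s))) : L2 S →L[ℝ] L2 S :=
  (k : ℝ)⁻¹ • ∑ i, compOp (fun s => X i * s) l (hf i)

lemma avgOp_apply (X : Fin k → S) (l : S → L)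
    (hf : ∀ i, Function.Injective (fun s => (X i * s, l s))) (v : L2 S) (s : S) :
    avgOp X l hf v s = (k : ℝ)⁻¹ * ∑ i, v (X i * s) := by
  unfold avgOp
  rw [ContinuousLinearMap.smul_apply, ContinuousLinearMap.sum_apply]
  rw [lp.coeFn_smul, Pi.smul_apply, smul_eq_mul]
  congr 1
  rw [lp.coeFn_sum, Finset.sum_apply]
  rfl

/-- the random walk operator -/
noncomputable def walkOp (X : Fin k → S) (l : S → L)
    (hf : ∀ i, Function.Injective (fun s => (X i * s, l s))) : L2 S →L[ℝ] L2 S :=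
  ContinuousLinearMap.adjoint (avgOp X l hf)

lemma walkOp_isWalkOperator (X : Fin k → S) (l : S → L)
    (hf : ∀ i, Function.Injective (fun s => (X i * s, l s))) :
    IsWalkOperator X (walkOp X l hf) := by
  classical
  intro v t
  have h1 : inner ℝ (lp.single 2 t (1 : ℝ) : L2 S) (walkOp X l hf v) = walkOp X l hf v t := by
    rw [lp.inner_single_left]
    simp
  rw [← h1]
  unfold walkOp
  rw [ContinuousLinearMap.adjoint_inner_right]
  have h2 := lp.hasSum_inner (𝕜 := ℝ) (avgOp X l hf (lp.single 2 t (1 : ℝ))) v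
  have h3 : ∀ s, v s * walkEntry X s t =
      inner ℝ (avgOp X l hf (lp.single 2 t (1 : ℝ)) s) (v s) := by
    intro s
    rw [avgOp_apply]
    simp only [RCLike.inner_apply, conj_trivial]
    congr 1
    unfold walkEntry
    rw [Nat.card_eq_fintype_card, Fintype.card_subtype, div_eq_mul_inv, mul_comm]
    congr 1
    rw [Finset.card_filter, Nat.cast_sum]
    refine Finset.sum_congr rfl (fun i _ => ?_)
    by_cases hi : X i * s = t
    · rw [hi, lp.single_apply_self]; simp
    · rw [lp.single_apply_ne _ _ _ hi]; simp [hi]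
  simp_rw [h3]
  exact h2

lemma avgOp_pow_lower (X : Fin k → S) (l : S → L)
    (hf : ∀ i, Function.Injective (fun s => (X i * s, l s))) (p : S) {r : ℕ} [DecidableEq S]
    (hr : r ≤ (Finset.univ.filter (fun i => X i = p)).card) (v : L2 S) (hv : ∀ s, 0 ≤ v s)
    (n : ℕ) : ∀ s, 0 ≤ ((avgOp X l hf) ^ n) v s ∧
      ((r : ℝ) / k) ^ n * v (p ^ n * s) ≤ ((avgOp X l hf) ^ n) v s := by
  induction n with
  | zero => intro s; simp [hv s]
  | succ n ih =>
    intro s
    have e : ((avgOp X l hf) ^ (n + 1)) v = avgOp X l hf (((avgOp X l hf) ^ n) v) := by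
      rw [pow_succ']; rfl
    rw [e, avgOp_apply]
    have h0 : ∀ i, 0 ≤ ((avgOp X l hf) ^ n) v (X i * s) := fun i => (ih _).1
    refine ⟨mul_nonneg (by positivity) (Finset.sum_nonneg (fun i _ => h0 i)), ?_⟩
    have h1 : (r : ℝ) * (((r : ℝ) / k) ^ n * v (p ^ n * (p * s))) ≤
        ∑ i, ((avgOp X l hf) ^ n) v (X i * s) := by
      calc (r : ℝ) * (((r : ℝ) / k) ^ n * v (p ^ n * (p * s)))
          ≤ ((Finset.univ.filter (fun i => X i = p)).card : ℝ) *
            (((r : ℝ) / k) ^ n * v (p ^ n * (p * s))) := by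
            refine mul_le_mul_of_nonneg_right (by exact_mod_cast hr) ?_
            exact mul_nonneg (by positivity) (hv _)
        _ ≤ ∑ i ∈ Finset.univ.filter (fun i => X i = p), ((avgOp X l hf) ^ n) v (X i * s) := by
            rw [← nsmul_eq_mul, ← Finset.sum_const]
            refine Finset.sum_le_sum (fun i hi => ?_)
            rw [Finset.mem_filter] at hi
            rw [hi.2]
            exact (ih _).2
        _ ≤ ∑ i, ((avgOp X l hf) ^ n) v (X i * s) :=
            Finset.sum_le_sum_of_subset_of_nonneg (Finset.filter_subset _ _)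
              (fun i _ _ => h0 i)
    calc ((r : ℝ) / k) ^ (n + 1) * v (p ^ (n + 1) * s)
        = (k : ℝ)⁻¹ * ((r : ℝ) * (((r : ℝ) / k) ^ n * v (p ^ n * (p * s)))) := by
          rw [pow_succ p, mul_assoc, pow_succ, div_eq_mul_inv]
          ring
      _ ≤ _ := mul_le_mul_of_nonneg_left h1 (by positivity)

lemma norm_avgOp_pow (X : Fin k → S) (l : S → L)
    (hf : ∀ i, Function.Injective (fun s => (X i * s, l s))) (p : S) {r : ℕ} [DecidableEq S]
    (hr : r ≤ (Finset.univ.filter (fun i => X i = p)).card) (n : ℕ) (F : Finset S)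
    (hF : ∀ s ∈ F, p ^ n * s = 1) :
    ((r : ℝ) / k) ^ n * Real.sqrt F.card ≤ ‖(avgOp X l hf) ^ n‖ := by
  set v : L2 S := lp.single 2 (1 : S) (1 : ℝ) with hv
  have hv0 : ∀ s, 0 ≤ v s := by
    intro s
    rw [hv, lp.single_apply]
    by_cases h : s = 1
    · subst h; simp
    · rw [Pi.single_eq_of_ne h]
  have hv1 : v 1 = 1 := by rw [hv, lp.single_apply_self]
  have hvn : ‖v‖ = 1 := by
    rw [hv, lp.norm_single (by norm_num)]; simp
  have h1 := lp.sum_rpow_le_norm_rpow (p := 2) (by norm_num) (((avgOp X l hf) ^ n) v) F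
  have h2 : (F.card : ℝ) * (((r : ℝ) / k) ^ n) ^ 2 ≤ ‖((avgOp X l hf) ^ n) v‖ ^ 2 := by
    have e : ‖((avgOp X l hf) ^ n) v‖ ^ (2 : ℝ≥0∞).toReal = ‖((avgOp X l hf) ^ n) v‖ ^ 2 := by
      simp
    rw [← e]
    refine le_trans ?_ h1
    rw [← nsmul_eq_mul, ← Finset.sum_const]
    refine Finset.sum_le_sum (fun s hs => ?_)
    have h3 := avgOp_pow_lower X l hf p hr v hv0 n s
    rw [hF s hs, hv1, mul_one] at h3
    have e2 : ‖((avgOp X l hf) ^ n) v s‖ ^ (2 : ℝ≥0∞).toReal =
        ‖((avgOp X l hf) ^ n) v s‖ ^ 2 := by simp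
    rw [e2, Real.norm_of_nonneg h3.1]
    exact pow_le_pow_left₀ (by positivity) h3.2 2
  have h4 : (((r : ℝ) / k) ^ n * Real.sqrt F.card) ≤ ‖((avgOp X l hf) ^ n) v‖ := by
    refine le_of_sq_le_sq ?_ (norm_nonneg _)
    rw [mul_pow, Real.sq_sqrt (by positivity), mul_comm]
    exact h2
  refine h4.trans ?_
  have h5 := ((avgOp X l hf) ^ n).le_opNorm v
  rwa [hvn, mul_one] at h5

lemma norm_walkOp_pow (X : Fin k → S) (l : S → L)
    (hf : ∀ i, Function.Injective (fun s => (X i * s, l s))) (n : ℕ) :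
    ‖(walkOp X l hf) ^ n‖ = ‖(avgOp X l hf) ^ n‖ := by
  unfold walkOp
  rw [← ContinuousLinearMap.star_eq_adjoint, ← star_pow, ContinuousLinearMap.star_eq_adjoint]
  exact LinearIsometryEquiv.norm_map _ _

end walk

/-! ### The spectral radius limit exists -/

lemma exists_spectralRadius {E : Type} [NormedAddCommGroup E] [NormedSpace ℝ E] (T : E →L[ℝ] E)
    {c : ℝ} (hc : 0 < c) (h : ∀ n, c ^ n ≤ ‖T ^ n‖) :
    ∃ ρ : ℝ, c ≤ ρ ∧ Tendsto (fun n : ℕ => ‖T ^ n‖ ^ (1 / (n : ℝ))) atTop (𝓝 ρ) := by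
  have hpos : ∀ n, 0 < ‖T ^ n‖ := fun n => lt_of_lt_of_le (by positivity) (h n)
  have hsub : Subadditive (fun n => Real.log ‖T ^ n‖) := by
    intro m n
    rw [← Real.log_mul (hpos m).ne' (hpos n).ne']
    refine Real.log_le_log (hpos _) ?_
    rw [pow_add]
    exact norm_mul_le _ _
  have hlow : ∀ n : ℕ, n ≠ 0 → Real.log c ≤ Real.log ‖T ^ n‖ / n := by
    intro n hn
    have hn' : (0 : ℝ) < n := by exact_mod_cast Nat.pos_of_ne_zero hn
    rw [le_div_iff₀ hn', mul_comm, ← Real.log_pow]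
    exact Real.log_le_log (by positivity) (h n)
  have hbdd : BddBelow (range fun n : ℕ => Real.log ‖T ^ n‖ / n) := by
    refine ⟨min (Real.log c) 0, ?_⟩
    rintro _ ⟨n, rfl⟩
    rcases eq_or_ne n 0 with rfl | hn
    · simp
    · exact (min_le_left _ _).trans (hlow n hn)
  have ht := hsub.tendsto_lim hbdd
  refine ⟨Real.exp hsub.lim, ?_, ?_⟩
  · have h1 : Real.log c ≤ hsub.lim := by
      refine ge_of_tendsto ht ?_
      filter_upwards [eventually_ne_atTop 0] with n hn using hlow n hn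
    calc c = Real.exp (Real.log c) := (Real.exp_log hc).symm
      _ ≤ _ := Real.exp_le_exp.2 h1
  · have h2 := (Real.continuous_exp.tendsto _).comp ht
    refine h2.congr (fun n => ?_)
    simp only [Function.comp_apply]
    rw [Real.rpow_def_of_pos (hpos n)]
    congr 1
    ring

/-! ### The monoid -/

/-- The monoid `⟨p, q_1, …, q_m | p q_i = 1⟩`; `⟨w, k⟩` stands for `q_w p^k`. -/
@[ext] structure Nm (m : ℕ) where
  /-- the word -/
  w : List (Fin m)
  /-- the exponent -/
  k : ℕ

instance (m : ℕ) : Monoid (Nm m) where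
  mul x y := ⟨x.w ++ y.w.drop x.k, (x.k - y.w.length) + y.k⟩
  one := ⟨[], 0⟩
  mul_assoc x y z := by
    show Nm.mk _ _ = Nm.mk _ _
    congr 1
    · show (x.w ++ y.w.drop x.k) ++ z.w.drop ((x.k - y.w.length) + y.k) =
        x.w ++ (y.w ++ z.w.drop y.k).drop x.k
      rw [List.append_assoc, List.drop_append, List.drop_drop, Nat.add_comm (x.k - y.w.length)]
    · show ((x.k - y.w.length) + y.k) - z.w.length + z.k =
        (x.k - (y.w ++ z.w.drop y.k).length) + ((y.k - z.w.length) + z.k)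
      rw [List.length_append, List.length_drop]
      omega
  one_mul x := by
    show Nm.mk ([] ++ x.w.drop 0) ((0 - x.w.length) + x.k) = x
    ext1 <;> simp
  mul_one x := by
    show Nm.mk (x.w ++ [].drop x.k) ((x.k - 0) + 0) = x
    ext1 <;> simp

lemma Nm.mul_def {m : ℕ} (x y : Nm m) :
    x * y = ⟨x.w ++ y.w.drop x.k, (x.k - y.w.length) + y.k⟩ := rfl

lemma Nm.one_def {m : ℕ} : (1 : Nm m) = ⟨[], 0⟩ := rfl

/-- The monoid `Nm m ⊔ R`, where `R` is a copy of `Nm m` (the elements with `b = true`), with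
`n * r_R = r_R`, `r_R * n = (r n)_R`, `r_R * r'_R = r'_R`. -/
@[ext] structure KN (m : ℕ) where
  /-- the underlying element of `Nm m` -/
  n : Nm m
  /-- is it in `R`? -/
  b : Bool

instance (m : ℕ) : Monoid (KN m) where
  mul x y := if y.b then ⟨y.n, true⟩ else ⟨x.n * y.n, x.b⟩
  one := ⟨1, false⟩
  mul_assoc x y z := by
    rcases x with ⟨x, _ | _⟩ <;> rcases y with ⟨y, _ | _⟩ <;> rcases z with ⟨z, _ | _⟩ <;>
      first
        | rfl
        | exact congrArg (fun q => KN.mk q _) (mul_assoc x y z)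
  one_mul x := by
    rcases x with ⟨x, _ | _⟩
    · exact congrArg (fun q => KN.mk q _) (one_mul x)
    · rfl
  mul_one x := by
    rcases x with ⟨x, _ | _⟩ <;> exact congrArg (fun q => KN.mk q _) (mul_one x)

lemma KN.mul_false {m : ℕ} (x : KN m) (n : Nm m) : x * ⟨n, false⟩ = ⟨x.n * n, x.b⟩ := rfl

lemma KN.mul_true {m : ℕ} (x : KN m) (n : Nm m) : x * ⟨n, true⟩ = ⟨n, true⟩ := rfl

lemma KN.one_def {m : ℕ} : (1 : KN m) = ⟨1, false⟩ := rfl

/-- The monoid of the counterexample. -/
abbrev SS (m : ℕ) : Type := FreeGroup (Fin 2) × KN m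

lemma leftReversible (m : ℕ) : LeftReversible (SS m) := by
  intro a b
  refine ⟨(a.1⁻¹, ⟨1, true⟩), (b.1⁻¹, ⟨1, true⟩), ?_⟩
  ext1
  · simp
  · rfl

lemma klawe (m : ℕ) : Klawe (SS m) := by
  intro s x y h
  refine ⟨(1, ⟨1, true⟩), ?_⟩
  have h1 : s.1 * x.1 = s.1 * y.1 := congrArg Prod.fst h
  have h2 : x.1 = y.1 := mul_left_cancel h1
  ext1
  · show x.1 * 1 = y.1 * 1
    rw [h2]
  · rfl

lemma not_leftAmenable (m : ℕ) : ¬ LeftAmenable (SS m) := by
  rintro ⟨μ, h0, h1, hadd, hinv⟩
  have hmono : ∀ A B, A ⊆ B → μ A ≤ μ B := by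
    intro A B hAB
    have := hadd A (B \ A) disjoint_sdiff_right
    rw [union_diff_cancel hAB] at this
    rw [this]
    linarith [h0 (B \ A)]
  have hsub : ∀ A B, μ (A ∪ B) ≤ μ A + μ B := by
    intro A B
    have := hadd A (B \ A) disjoint_sdiff_right
    rw [union_diff_self] at this
    rw [this]
    linarith [hmono (B \ A) B diff_subset]
  -- the sets of elements whose first coordinate starts with a given letter
  let W : Fin 2 × Bool → Set (SS m) := fun q => {s | s.1 ∈ FreeGroup.startsWith q}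
  have hW : ∀ j : Fin 2, 1 ≤ μ (W (j, false)) + μ (W (j, true)) := by
    intro j
    have h2 := hinv (FreeGroup.mk [(j, true)], 1) (W (j, true))
    rw [← h2, ← h1]
    refine le_trans (hmono _ _ ?_) (hsub _ _)
    intro s _
    by_cases hs : s.1 ∈ FreeGroup.startsWith (j, false)
    · exact Or.inl hs
    · exact Or.inr (FreeGroup.startsWith_mk_mul (w := (j, true)) s.1 hs)
  have hdis : ∀ q q' : Fin 2 × Bool, q ≠ q' → Disjoint (W q) (W q') := by
    intro q q' hq
    rw [Set.disjoint_left]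
    intro s hs hs'
    exact Set.disjoint_left.1 (FreeGroup.startsWith.disjoint_iff_ne.2 hq) hs hs'
  have e1 := hadd (W (0, false)) (W (0, true)) (hdis _ _ (by decide))
  have e2 := hadd (W (1, false)) (W (1, true)) (hdis _ _ (by decide))
  have e3 := hadd (W (0, false) ∪ W (0, true)) (W (1, false) ∪ W (1, true)) (by
    rw [Set.disjoint_union_left, Set.disjoint_union_right, Set.disjoint_union_right]
    exact ⟨⟨hdis _ _ (by decide), hdis _ _ (by decide)⟩,
      ⟨hdis _ _ (by decide), hdis _ _ (by decide)⟩⟩)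
  have e4 := hmono ((W (0, false) ∪ W (0, true)) ∪ (W (1, false) ∪ W (1, true))) univ
    (subset_univ _)
  have := hW 0
  have := hW 1
  linarith

/-- the label used to separate the fibres -/
def lab (m : ℕ) (s : SS m) : Option (Fin m) × Bool := (s.2.n.w.head?, s.2.b)

/-- the index type of the generators -/
abbrev Ix (m : ℕ) : Type := (Fin 2 × Bool) ⊕ (Option (Fin m) ⊕ Fin (m + 5))

/-- the generators, indexed by `Ix m` -/
def gen (m : ℕ) : Ix m → SS m
  | .inl q => (FreeGroup.mk [q], 1)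
  | .inr (.inl none) => (1, ⟨1, true⟩)
  | .inr (.inl (some i)) => (1, ⟨⟨[i], 0⟩, false⟩)
  | .inr (.inr _) => (1, ⟨⟨[], 1⟩, false⟩)

lemma gen_injective (m : ℕ) (i : Ix m) :
    Function.Injective (fun s : SS m => (gen m i * s, lab m s)) := by
  rintro ⟨g, ⟨⟨w, k⟩, b⟩⟩ ⟨g', ⟨⟨w', k'⟩, b'⟩⟩ h
  simp only [Prod.mk.injEq, lab] at h
  obtain ⟨h1, h2, h3⟩ := h
  subst h3
  rcases i with q | (_ | i) | i
  · have e1 : FreeGroup.mk [q] * g = FreeGroup.mk [q] * g' := congrArg Prod.fst h1
    have e2 : (1 : KN m) * ⟨⟨w, k⟩, b⟩ = 1 * ⟨⟨w', k'⟩, b⟩ := congrArg Prod.snd h1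
    rw [one_mul, one_mul] at e2
    rw [mul_left_cancel e1, e2]
  · have e1 : (1 : FreeGroup (Fin 2)) * g = 1 * g' := congrArg Prod.fst h1
    have e2 : (⟨1, true⟩ : KN m) * ⟨⟨w, k⟩, b⟩ = ⟨1, true⟩ * ⟨⟨w', k'⟩, b⟩ :=
      congrArg Prod.snd h1
    rw [one_mul, one_mul] at e1
    rcases b with _ | _
    · rw [KN.mul_false, KN.mul_false] at e2
      simp only [one_mul, KN.mk.injEq, and_true] at e2
      rw [e1, e2]
    · rw [KN.mul_true, KN.mul_true] at e2
      rw [e1, e2]
  · have e1 : (1 : FreeGroup (Fin 2)) * g = 1 * g' := congrArg Prod.fst h1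
    have e2 : (⟨⟨[i], 0⟩, false⟩ : KN m) * ⟨⟨w, k⟩, b⟩ = ⟨⟨[i], 0⟩, false⟩ * ⟨⟨w', k'⟩, b⟩ :=
      congrArg Prod.snd h1
    rw [one_mul, one_mul] at e1
    rcases b with _ | _
    · rw [KN.mul_false, KN.mul_false] at e2
      simp only [KN.mk.injEq, and_true, Nm.mul_def, Nm.mk.injEq] at e2
      simp only [List.drop_zero, List.append_cancel_left_eq, zero_tsub, zero_add] at e2
      rw [e1, e2.1, e2.2]
    · rw [KN.mul_true, KN.mul_true] at e2
      rw [e1, e2]
  · have e1 : (1 : FreeGroup (Fin 2)) * g = 1 * g' := congrArg Prod.fst h1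
    have e2 : (⟨⟨[], 1⟩, false⟩ : KN m) * ⟨⟨w, k⟩, b⟩ = ⟨⟨[], 1⟩, false⟩ * ⟨⟨w', k'⟩, b⟩ :=
      congrArg Prod.snd h1
    rw [one_mul, one_mul] at e1
    rcases b with _ | _
    · rw [KN.mul_false, KN.mul_false] at e2
      simp only [KN.mk.injEq, and_true, Nm.mul_def, Nm.mk.injEq] at e2
      rcases w with _ | ⟨x, w⟩ <;> rcases w' with _ | ⟨x', w'⟩
      · simp at e2
        rw [e1, e2]
      · simp at h2
      · simp at h2
      · simp at e2 h2
        rw [e1, e2.1, e2.2, h2]
    · rw [KN.mul_true, KN.mul_true] at e2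
      rw [e1, e2]

lemma closure_gen (m : ℕ) : Submonoid.closure (range (gen m)) = ⊤ := by
  rw [eq_top_iff]
  have hg : ∀ i, gen m i ∈ Submonoid.closure (range (gen m)) := fun i =>
    Submonoid.subset_closure ⟨i, rfl⟩
  have h1 : ∀ L : List (Fin 2 × Bool),
      ((FreeGroup.mk L, 1) : SS m) ∈ Submonoid.closure (range (gen m)) := by
    intro L
    induction L with
    | nil => exact Submonoid.one_mem _
    | cons q L ih =>
      have := Submonoid.mul_mem _ (hg (.inl q)) ih
      have e : gen m (.inl q) * (FreeGroup.mk L, 1) = (FreeGroup.mk (q :: L), 1) := by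
        show ((FreeGroup.mk [q] * FreeGroup.mk L, (1 : KN m) * 1) : SS m) = _
        rw [FreeGroup.mul_mk, mul_one]
        rfl
      rwa [e] at this
  have h2 : ∀ k : ℕ, ((1, ⟨⟨[], k⟩, false⟩) : SS m) ∈ Submonoid.closure (range (gen m)) := by
    intro k
    induction k with
    | zero => exact Submonoid.one_mem _
    | succ k ih =>
      have := Submonoid.mul_mem _ ih (hg (.inr (.inr 0)))
      have e : ((1, ⟨⟨[], k⟩, false⟩) : SS m) * gen m (.inr (.inr 0)) =
          (1, ⟨⟨[], k + 1⟩, false⟩) := by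
        show (((1 : FreeGroup (Fin 2)) * 1, (⟨⟨[], k⟩, false⟩ : KN m) * ⟨⟨[], 1⟩, false⟩) : SS m) = _
        rw [KN.mul_false, mul_one, Nm.mul_def]
        simp
      rwa [e] at this
  have h3 : ∀ (w : List (Fin m)) (k : ℕ),
      ((1, ⟨⟨w, k⟩, false⟩) : SS m) ∈ Submonoid.closure (range (gen m)) := by
    intro w k
    induction w with
    | nil => exact h2 k
    | cons i w ih =>
      have := Submonoid.mul_mem _ (hg (.inr (.inl (some i)))) ih
      have e : gen m (.inr (.inl (some i))) * ((1, ⟨⟨w, k⟩, false⟩) : SS m) =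
          (1, ⟨⟨i :: w, k⟩, false⟩) := by
        show (((1 : FreeGroup (Fin 2)) * 1, (⟨⟨[i], 0⟩, false⟩ : KN m) * ⟨⟨w, k⟩, false⟩) : SS m) = _
        rw [KN.mul_false, mul_one, Nm.mul_def]
        simp
      rwa [e] at this
  have h4 : ∀ (n : Nm m) (b : Bool), ((1, ⟨n, b⟩) : SS m) ∈ Submonoid.closure (range (gen m)) := by
    intro n b
    rcases b with _ | _
    · exact h3 n.w n.k
    · have := Submonoid.mul_mem _ (hg (.inr (.inl none))) (h3 n.w n.k)
      have e : gen m (.inr (.inl none)) * ((1, ⟨⟨n.w, n.k⟩, false⟩) : SS m) =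
          (1, ⟨n, true⟩) := by
        show (((1 : FreeGroup (Fin 2)) * 1, (⟨1, true⟩ : KN m) * ⟨⟨n.w, n.k⟩, false⟩) : SS m) = _
        rw [KN.mul_false, mul_one, one_mul]
      rwa [e] at this
  rintro ⟨g, ⟨n, b⟩⟩ -
  have h5 := Submonoid.mul_mem _ (h1 g.toWord) (h4 n b)
  have e : ((FreeGroup.mk g.toWord, 1) : SS m) * (1, ⟨n, b⟩) = (g, ⟨n, b⟩) := by
    rw [FreeGroup.mk_toWord]
    show ((g * 1, 1 * (⟨n, b⟩ : KN m)) : SS m) = _
    rw [mul_one, one_mul]
  rwa [e] at h5

lemma p_pow (m n : ℕ) : ((1, ⟨⟨[], 1⟩, false⟩) : SS m) ^ n = (1, ⟨⟨[], n⟩, false⟩) := by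
  induction n with
  | zero => rfl
  | succ n ih =>
    rw [pow_succ, ih]
    show (((1 : FreeGroup (Fin 2)) * 1, (⟨⟨[], n⟩, false⟩ : KN m) * ⟨⟨[], 1⟩, false⟩) : SS m) = _
    rw [KN.mul_false, mul_one, Nm.mul_def]
    simp

/-- The word `w` gives an element `s` with `p ^ |w| * s = 1`. -/
lemma p_pow_mul (m : ℕ) (w : List (Fin m)) :
    ((1, ⟨⟨[], 1⟩, false⟩) : SS m) ^ w.length * (1, ⟨⟨w, 0⟩, false⟩) = 1 := by
  rw [p_pow]
  show (((1 : FreeGroup (Fin 2)) * 1, (⟨⟨[], w.length⟩, false⟩ : KN m) * ⟨⟨w, 0⟩, false⟩) : SS m) = _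
  rw [KN.mul_false, mul_one, Nm.mul_def]
  simp
  rfl

/-- **Main theorem.** For every real `C` there is a finitely generated, left reversible monoid
satisfying the Klawe condition, with a finite generating family for which the left random walk
operator is defined and has spectral radius (and norm) at least `C`, and which is not left
amenable. -/
theorem result (C : ℝ) : ∃ (S : Type) (_ : Monoid S) (k : ℕ) (X : Fin k → S)
    (T : L2 S →L[ℝ] L2 S) (ρ : ℝ),
    Submonoid.closure (range X) = ⊤ ∧ LeftReversible S ∧ Klawe S ∧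
    IsWalkOperator X T ∧
    Tendsto (fun n : ℕ => ‖T ^ n‖ ^ (1 / (n : ℝ))) atTop (𝓝 ρ) ∧ C ≤ ρ ∧ C ≤ ‖T‖ ∧
    ¬ LeftAmenable S := by
  classical
  obtain ⟨m, hm⟩ := exists_nat_ge ((2 * (|C| + 1)) ^ 2)
  let e : Fin (Fintype.card (Ix m)) ≃ Ix m := (Fintype.equivFin (Ix m)).symm
  let X : Fin (Fintype.card (Ix m)) → SS m := fun i => gen m (e i)
  have hX : ∀ i, Function.Injective (fun s : SS m => (X i * s, lab m s)) := fun i =>
    gen_injective m (e i)
  let T : L2 (SS m) →L[ℝ] L2 (SS m) := walkOp X (lab m) hX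
  have hcard : Fintype.card (Ix m) = 2 * (m + 5) := by
    simp only [Fintype.card_sum, Fintype.card_prod, Fintype.card_fin, Fintype.card_bool,
      Fintype.card_option]
    ring
  have hr : m + 5 ≤ (Finset.univ.filter (fun i => X i = (1, ⟨⟨[], 1⟩, false⟩))).card := by
    have h1 : (Finset.univ.image (fun j : Fin (m + 5) => e.symm (.inr (.inr j)))) ⊆
        Finset.univ.filter (fun i => X i = (1, ⟨⟨[], 1⟩, false⟩)) := by
      intro i hi
      rw [Finset.mem_image] at hi
      obtain ⟨j, -, rfl⟩ := hi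
      rw [Finset.mem_filter]
      refine ⟨Finset.mem_univ _, ?_⟩
      show gen m (e (e.symm _)) = _
      rw [Equiv.apply_symm_apply]
      rfl
    have h2 := Finset.card_le_card h1
    rw [Finset.card_image_of_injective _ (by
      intro a b hab
      simpa using e.symm.injective hab), Finset.card_univ, Fintype.card_fin] at h2
    exact h2
  have hcpos : (0 : ℝ) < Real.sqrt m / 2 := by
    have : (0 : ℝ) < m := lt_of_lt_of_le (by positivity) hm
    positivity
  have hCle : C ≤ Real.sqrt m / 2 := by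
    have h1 : 2 * (|C| + 1) ≤ Real.sqrt m := Real.le_sqrt_of_sq_le hm
    linarith [le_abs_self C]
  have hpow : ∀ n, (Real.sqrt m / 2) ^ n ≤ ‖T ^ n‖ := by
    intro n
    show _ ≤ ‖(walkOp X (lab m) hX) ^ n‖
    rw [norm_walkOp_pow]
    let F : Finset (SS m) := Finset.univ.image
      (fun w : Fin n → Fin m => ((1, ⟨⟨List.ofFn w, 0⟩, false⟩) : SS m))
    have hF : F.card = m ^ n := by
      rw [Finset.card_image_of_injective, Finset.card_univ, Fintype.card_fun, Fintype.card_fin,
        Fintype.card_fin]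
      intro a b hab
      simp only [Prod.mk.injEq, KN.mk.injEq, Nm.mk.injEq, and_true, true_and] at hab
      exact List.ofFn_injective hab
    have h1 := norm_avgOp_pow X (lab m) hX (1, ⟨⟨[], 1⟩, false⟩) hr n F (by
      intro s hs
      rw [Finset.mem_image] at hs
      obtain ⟨w, -, rfl⟩ := hs
      have := p_pow_mul m (List.ofFn w)
      rwa [List.length_ofFn] at this)
    refine le_trans (le_of_eq ?_) h1
    rw [hF, hcard]
    have h2 : ((m + 5 : ℕ) : ℝ) / ((2 * (m + 5) : ℕ) : ℝ) = 1 / 2 := by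
      push_cast
      have : (m : ℝ) + 5 ≠ 0 := by positivity
      field_simp
    rw [h2]
    push_cast
    rw [Real.sqrt_eq_rpow, Real.sqrt_eq_rpow, ← Real.rpow_natCast _ n, ← Real.rpow_natCast _ n,
      ← Real.rpow_natCast _ n, ← Real.rpow_mul (by positivity), mul_comm (n : ℝ) (1 / 2),
      Real.rpow_mul (by positivity), ← Real.mul_rpow (by positivity) (by positivity)]
    congr 1
    ring
  obtain ⟨ρ, hρ, hlim⟩ := exists_spectralRadius T hcpos hpow
  refine ⟨SS m, inferInstance, _, X, T, ρ, ?_, leftReversible m, klawe m,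
    walkOp_isWalkOperator X (lab m) hX, hlim, hCle.trans hρ, ?_, not_leftAmenable m⟩
  · have : range X = range (gen m) := e.surjective.range_comp (gen m)
    rw [this]
    exact closure_gen m
  · have := hpow 1
    rw [pow_one, pow_one] at this
    exact hCle.trans this

end Pool.Agent.Results.MP_122225_al.LargeSpectralRadius
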